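import Mathlib

set_option autoImplicit false

/-!
# A two-generated group acting on the 5-ary rooted tree

`a = (a, 1, 1, 1, 1) α`, `b = (1, 1, b, 1, 1) β` with `α = (1 2)(3 4)`, `β = (0 1 3)`.
-/

namespace Pool.Agent.R638.A5

/-- The alphabet. -/
abbrev X := Fin 5

/-- The group of all permutations of the set of words. -/
abbrev P := Equiv.Perm (List X)

/-- Letters: `A` for `a`, `B` for `b`, `C` for the inverse of `b`. -/
inductive Lt
  | A | B | C
  deriving DecidableEq

/-- Root permutations of the letters. -/
def rt : Lt → X → X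
  | .A => ![0, 2, 1, 4, 3]
  | .B => ![1, 3, 2, 0, 4]
  | .C => ![3, 0, 2, 1, 4]

/-- The vertex at which a letter has its section. -/
def pt : Lt → X
  | .A => 0
  | .B => 2
  | .C => 2

/-- Inverse letters. -/
def iv : Lt → Lt
  | .A => .A
  | .B => .C
  | .C => .B

theorem iv_iv (s : Lt) : iv (iv s) = s := by cases s <;> rfl

theorem pt_iv (s : Lt) : pt (iv s) = pt s := by cases s <;> rfl

theorem rt_iv (s : Lt) (x : X) : rt (iv s) (rt s x) = x := by
  cases s <;> revert x <;> decide

theorem rt_iv' (s : Lt) (x : X) : rt s (rt (iv s) x) = x := by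
  have := rt_iv (iv s) x
  rwa [iv_iv] at this

theorem rt_pt (s : Lt) : rt s (pt s) = pt s := by cases s <;> rfl

theorem rt_eq_pt (s : Lt) (x : X) : rt s x = pt s ↔ x = pt s := by
  constructor
  · intro h
    rw [← rt_iv s x, h, ← pt_iv s, rt_pt]
  · rintro rfl
    exact rt_pt s

/-- The action of a letter on words. -/
def act (s : Lt) : List X → List X
  | [] => []
  | x :: w => rt s x :: (if x = pt s then act s w else w)

theorem act_nil (s : Lt) : act s [] = [] := rfl

theorem act_cons (s : Lt) (x : X) (w : List X) :
    act s (x :: w) = rt s x :: (if x = pt s then act s w else w) := rfl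

theorem act_iv (s : Lt) (w : List X) : act (iv s) (act s w) = w := by
  induction w with
  | nil => rfl
  | cons x w ih =>
    rw [act_cons, act_cons, rt_iv, pt_iv]
    by_cases h : x = pt s
    · rw [if_pos h, if_pos ((rt_eq_pt s x).2 h), ih]
    · rw [if_neg h, if_neg (fun h' => h ((rt_eq_pt s x).1 h'))]

/-- The permutation of the words defined by a letter. -/
def gen (s : Lt) : P where
  toFun := act s
  invFun := act (iv s)
  left_inv := act_iv s
  right_inv w := by
    have := act_iv (iv s) w
    rwa [iv_iv] at this

theorem gen_apply (s : Lt) (w : List X) : gen s w = act s w := rfl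

theorem gen_iv (s : Lt) : gen (iv s) = (gen s)⁻¹ := by
  apply Equiv.ext
  intro w
  rfl

/-- The element defined by a word; the last letter acts first. -/
def ev (w : List Lt) : P := (w.map gen).prod

theorem ev_nil : ev [] = 1 := rfl
theorem ev_cons (s : Lt) (w : List Lt) : ev (s :: w) = gen s * ev w := by simp [ev]
theorem ev_append (v w : List Lt) : ev (v ++ w) = ev v * ev w := by simp [ev]

/-- The root permutation of a word. -/
def rtw : List Lt → X → X
  | [], x => x
  | s :: w, x => rt s (rtw w x)

/-- The sections of a word. -/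
def sec : List Lt → X → List Lt
  | [], _ => []
  | s :: w, x => if rtw w x = pt s then s :: sec w x else sec w x

theorem ev_apply_nil (w : List Lt) : ev w [] = [] := by
  induction w with
  | nil => rfl
  | cons s w ih => rw [ev_cons, Equiv.Perm.mul_apply, ih]; rfl

theorem ev_apply_cons (w : List Lt) (x : X) (u : List X) :
    ev w (x :: u) = rtw w x :: ev (sec w x) u := by
  induction w with
  | nil => rfl
  | cons s w ih =>
    rw [ev_cons, Equiv.Perm.mul_apply, ih, gen_apply, act_cons]
    by_cases h : rtw w x = pt s
    · rw [if_pos h]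
      have : sec (s :: w) x = s :: sec w x := by simp [sec, h]
      rw [this, ev_cons]
      rfl
    · rw [if_neg h]
      have : sec (s :: w) x = sec w x := by simp [sec, h]
      rw [this]
      rfl

/-! ### Relations -/

theorem AA : gen .A * gen .A = 1 := by
  have h := gen_iv .A
  change gen .A = (gen .A)⁻¹ at h
  nth_rewrite 1 [h]
  exact inv_mul_cancel _

theorem BC : gen .B * gen .C = 1 := by
  have h := gen_iv .B
  change gen .C = (gen .B)⁻¹ at h
  rw [h]
  exact mul_inv_cancel _

theorem CB : gen .C * gen .B = 1 := by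
  have h := gen_iv .B
  change gen .C = (gen .B)⁻¹ at h
  rw [h]
  exact inv_mul_cancel _

theorem BBB (w : List X) : act .B (act .B (act .B w)) = w := by
  induction w with
  | nil => rfl
  | cons x w ih =>
    have h1 : rt .B (rt .B (rt .B x)) = x := by revert x; decide
    rw [act_cons, act_cons, act_cons, h1]
    by_cases h : x = pt .B
    · rw [if_pos h, if_pos ((rt_eq_pt _ _).2 h), if_pos ((rt_eq_pt _ _).2 ((rt_eq_pt _ _).2 h)), ih]
    · have h2 : ¬ rt .B x = pt .B := fun h' => h ((rt_eq_pt _ x).1 h')
      have h3 : ¬ rt .B (rt .B x) = pt .B := fun h' => h2 ((rt_eq_pt _ _).1 h')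
      rw [if_neg h, if_neg h2, if_neg h3]

theorem BB : gen .B * gen .B = gen .C := by
  have h : gen .B * (gen .B * gen .B) = 1 := Equiv.ext fun w => BBB w
  calc gen .B * gen .B = (gen .C * gen .B) * (gen .B * gen .B) := by rw [CB, one_mul]
    _ = gen .C * (gen .B * (gen .B * gen .B)) := by rw [mul_assoc]
    _ = gen .C := by rw [h, mul_one]

theorem CC : gen .C * gen .C = gen .B := by
  calc gen .C * gen .C = (gen .B * gen .B) * gen .C := by rw [BB]
    _ = gen .B * (gen .B * gen .C) := by rw [mul_assoc]
    _ = gen .B := by rw [BC, mul_one]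

/-- Types of letters. -/
def typ : Lt → Bool
  | .A => false
  | .B => true
  | .C => true

/-- Merging a letter with a word of length at most one of the same type. -/
theorem merge (s : Lt) (x : List Lt) (hx : x.length ≤ 1) (ht : ∀ t ∈ x, typ t = typ s) :
    ∃ y : List Lt, y.length ≤ 1 ∧ (∀ t ∈ y, typ t = typ s) ∧ ev y = gen s * ev x := by
  match x, hx, ht with
  | [], _, _ => exact ⟨[s], by simp, by simp, by simp [ev]⟩
  | [t], _, ht =>
    have h := ht t (by simp)
    cases s <;> cases t <;> simp [typ] at h
    · exact ⟨[], by simp, by simp, by simp [ev, AA]⟩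
    · exact ⟨[.C], by simp, by simp [typ], by simp [ev, BB]⟩
    · exact ⟨[], by simp, by simp, by simp [ev, BC]⟩
    · exact ⟨[], by simp, by simp, by simp [ev, CB]⟩
    · exact ⟨[.B], by simp, by simp [typ], by simp [ev, CC]⟩

/-- The number of pairs of adjacent letters of the same type. -/
def adj : List Lt → ℕ
  | [] => 0
  | [_] => 0
  | s :: t :: w => (if typ s = typ t then 1 else 0) + adj (t :: w)

theorem short_aux (s : Lt) (w : List Lt) : ∃ x u : List Lt, x.length ≤ 1 ∧
    (∀ t ∈ x, typ t = typ s) ∧ ev (x ++ u) = ev (s :: w) ∧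
    u.length + 1 + adj (s :: w) ≤ (s :: w).length := by
  induction w generalizing s with
  | nil => exact ⟨[s], [], by simp, by simp, by simp, by simp [adj]⟩
  | cons t w ih =>
    obtain ⟨x, u, h1, h2, h3, h4⟩ := ih t
    by_cases h : typ s = typ t
    · obtain ⟨y, h5, h6, h7⟩ := merge s x h1 fun r hr => (h2 r hr).trans h.symm
      refine ⟨y, u, h5, h6, ?_, ?_⟩
      · rw [ev_append, h7, mul_assoc, ← ev_append, h3, ← ev_cons]
      · have e : adj (s :: t :: w) = 1 + adj (t :: w) := by simp [adj, h]
        rw [e, List.length_cons]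
        omega
    · refine ⟨[s], x ++ u, by simp, by simp, ?_, ?_⟩
      · rw [ev_append, h3, ev_cons, ev_cons s, ev_nil, mul_one, ev_cons]
      · have e : adj (s :: t :: w) = adj (t :: w) := by simp [adj, h]
        rw [e, List.length_cons, List.length_append]
        omega

/-- A word with many pairs of adjacent letters of the same type can be shortened. -/
theorem short (w : List Lt) : ∃ u : List Lt, ev u = ev w ∧ u.length + adj w ≤ w.length := by
  cases w with
  | nil => exact ⟨[], rfl, by simp [adj]⟩
  | cons s w =>
    obtain ⟨x, u, h1, h2, h3, h4⟩ := short_aux s w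
    exact ⟨x ++ u, h3, by rw [List.length_append]; omega⟩

end Pool.Agent.R638.A5
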