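import Pool.Agent.R638.A5.Basic

set_option autoImplicit false

/-!
# Contraction
-/

namespace Pool.Agent.R638.A5

/-! ### Sections -/

theorem rtw_inj (w : List Lt) : Function.Injective (rtw w) := by
  induction w with
  | nil => exact fun _ _ h => h
  | cons s w ih =>
    intro x y h
    apply ih
    have := congrArg (rt (iv s)) h
    simp only [rtw, rt_iv] at this
    exact this

theorem rtw_surj (w : List Lt) : Function.Surjective (rtw w) :=
  Finite.surjective_of_injective (rtw_inj w)

theorem sum_sec (s : Lt) (w : List Lt) (F : List Lt → ℕ) :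
    ∃ x : X, rtw w x = pt s ∧ (∑ y, F (sec (s :: w) y)) + F (sec w x) =
      (∑ y, F (sec w y)) + F (s :: sec w x) := by
  obtain ⟨x, hx⟩ := rtw_surj w (pt s)
  refine ⟨x, hx, ?_⟩
  have h1 := Finset.sum_erase_add (Finset.univ) (fun y => F (sec (s :: w) y)) (Finset.mem_univ x)
  have h2 := Finset.sum_erase_add (Finset.univ) (fun y => F (sec w y)) (Finset.mem_univ x)
  have h3 : ∑ y ∈ Finset.univ.erase x, F (sec (s :: w) y) = ∑ y ∈ Finset.univ.erase x, F (sec w y) := by
    apply Finset.sum_congr rfl
    intro y hy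
    have hne : y ≠ x := (Finset.mem_erase.1 hy).1
    have : rtw w y ≠ pt s := fun h => hne (rtw_inj w (h.trans hx.symm))
    simp [sec, this]
  have h4 : sec (s :: w) x = s :: sec w x := by simp [sec, hx]
  rw [← h1, ← h2, h3, h4]
  ring

theorem sum_length_sec (w : List Lt) : ∑ x, (sec w x).length = w.length := by
  induction w with
  | nil => simp [sec]
  | cons s w ih =>
    obtain ⟨x, _, h⟩ := sum_sec s w List.length
    rw [ih] at h
    simp only [List.length_cons] at h ⊢
    omega

/-- New flags. -/
def upd (s : Lt) (f : X → Bool) : X → Bool := fun y =>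
  if rt (iv s) y = pt s then typ s else f (rt (iv s) y)

/-- The flag of a place: the type of the last letter whose section was taken by the letter now there. -/
def flag : List Lt → X → Bool
  | [] => fun _ => false
  | s :: w => upd s (flag w)

/-- The number of events. -/
def evt : List Lt → ℕ
  | [] => 0
  | s :: w => evt w + (if flag w (pt s) = typ s then 1 else 0)

theorem flag_sec (w : List Lt) (x : X) (t : Lt) (u : List Lt) (h : sec w x = t :: u) :
    flag w (rtw w x) = typ t := by
  induction w generalizing t u with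
  | nil => simp [sec] at h
  | cons s w ih =>
    show upd s (flag w) (rt s (rtw w x)) = typ t
    rw [upd, rt_iv]
    by_cases hx : rtw w x = pt s
    · rw [if_pos hx]
      have h1 : sec (s :: w) x = s :: sec w x := by simp [sec, hx]
      rw [h1] at h
      rw [(List.cons.inj h).1]
    · rw [if_neg hx]
      have h1 : sec (s :: w) x = sec w x := by simp [sec, hx]
      rw [h1] at h
      exact ih t u h

/-- auxiliary count -/
def adj1 (u : List Lt) : ℕ := adj u + (if u = [] then 0 else 1)

theorem adj1_le (u : List Lt) : adj1 u ≤ adj u + 1 := by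
  unfold adj1
  split_ifs <;> omega

theorem evt_le (w : List Lt) : evt w ≤ ∑ x, adj1 (sec w x) := by
  induction w with
  | nil => simp [evt]
  | cons s w ih =>
    obtain ⟨x, hx, h⟩ := sum_sec s w adj1
    have h1 : adj1 (sec w x) + (if flag w (pt s) = typ s then 1 else 0) ≤ adj1 (s :: sec w x) := by
      cases hs : sec w x with
      | nil =>
        simp only [adj1, adj, if_true, List.cons_ne_nil, if_false]
        split_ifs <;> omega
      | cons t u =>
        have hf := flag_sec w x t u hs
        rw [hx] at hf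
        rw [hf]
        by_cases htt : typ t = typ s
        · have e : adj (s :: t :: u) = 1 + adj (t :: u) := by simp [adj, htt]
          simp only [adj1, List.cons_ne_nil, if_false, htt, if_true, e]
          omega
        · have htt' : ¬ typ s = typ t := fun h => htt h.symm
          have e : adj (s :: t :: u) = adj (t :: u) := by simp [adj, htt']
          simp only [adj1, List.cons_ne_nil, if_false, htt, e]
          omega
    have h2 : evt (s :: w) = evt w + (if flag w (pt s) = typ s then 1 else 0) := rfl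
    rw [h2]
    omega

/-! ### Alternating words -/

/-- The letter of a sign. -/
def bl (e : Bool) : Lt := if e then .B else .C

/-- Alternating words. -/
def wd : List Bool → List Lt
  | [] => []
  | e :: l => .A :: bl e :: wd l

/-- The number of defects. -/
def dfc : List Bool → ℕ
  | e :: e₁ :: e₂ :: l => (if e = e₂ then 0 else 1) + dfc (e₁ :: e₂ :: l)
  | _ => 0

/-- The values of the potential. -/
def tab : List ℕ := [2, 1, 3, 2, 3, 2, 2, 1, 3, 2, 4, 3, 4, 3, 3, 2, 1, 0, 2, 1, 2, 1, 1, 0, 2, 1, 3,
  2, 3, 2, 2, 1, 1, 2, 2, 3, 2, 3, 1, 2, 2, 1, 3, 2, 3, 2, 2, 1, 0, 1, 1, 2, 1, 2, 0, 1, 1, 0, 2, 1,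
  2, 1, 1, 0, 1, 2, 2, 3, 2, 3, 1, 2, 2, 1, 3, 2, 3, 2, 2, 1, 0, 1, 1, 2, 1, 2, 0, 1, 1, 0, 2, 1, 2,
  1, 1, 0, 2, 3, 3, 4, 3, 4, 2, 3, 1, 2, 2, 3, 2, 3, 1, 2, 1, 2, 2, 3, 2, 3, 1, 2, 0, 1, 1, 2, 1, 2,
  0, 1]

/-- The potential. -/
def pot (f : X → Bool) (e₁ e₂ : Bool) : ℕ :=
  tab.getD (64 * (f 0).toNat + 32 * (f 1).toNat + 16 * (f 2).toNat + 8 * (f 3).toNat +
    4 * (f 4).toNat + 2 * e₁.toNat + e₂.toNat) 0

theorem pot_le (f : X → Bool) (e₁ e₂ : Bool) : pot f e₁ e₂ ≤ 4 := by
  unfold pot
  generalize f 0 = a0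
  generalize f 1 = a1
  generalize f 2 = a2
  generalize f 3 = a3
  generalize f 4 = a4
  revert a0 a1 a2 a3 a4 e₁ e₂
  decide

theorem pot_step' (a0 a1 a2 a3 a4 e e₁ e₂ : Bool) :
    (if e = e₂ then 0 else 1) + pot (upd .A (upd (bl e) ![a0, a1, a2, a3, a4])) e e₁ ≤
      pot ![a0, a1, a2, a3, a4] e₁ e₂ +
      ((if ![a0, a1, a2, a3, a4] (pt (bl e)) = typ (bl e) then 1 else 0) +
      (if upd (bl e) ![a0, a1, a2, a3, a4] (pt .A) = typ .A then 1 else 0)) := by
  revert a0 a1 a2 a3 a4 e e₁ e₂
  decide

theorem pot_step (f : X → Bool) (e e₁ e₂ : Bool) :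
    (if e = e₂ then 0 else 1) + pot (upd .A (upd (bl e) f)) e e₁ ≤
      pot f e₁ e₂ + ((if f (pt (bl e)) = typ (bl e) then 1 else 0) +
      (if upd (bl e) f (pt .A) = typ .A then 1 else 0)) := by
  have h : f = ![f 0, f 1, f 2, f 3, f 4] := by
    funext i
    fin_cases i <;> rfl
  rw [h]
  exact pot_step' _ _ _ _ _ _ _ _

theorem dfc_le_aux (l : List Bool) (e₁ e₂ : Bool) :
    dfc (e₁ :: e₂ :: l) + pot (flag (wd (e₁ :: e₂ :: l))) e₁ e₂ ≤ evt (wd (e₁ :: e₂ :: l)) + 4 := by
  induction l generalizing e₁ e₂ with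
  | nil =>
    have h1 : dfc [e₁, e₂] = 0 := rfl
    have h2 := pot_le (flag (wd [e₁, e₂])) e₁ e₂
    omega
  | cons e₃ l ih =>
    have h1 := ih e₂ e₃
    have h2 := pot_step (flag (wd (e₂ :: e₃ :: l))) e₁ e₂ e₃
    have h3 : dfc (e₁ :: e₂ :: e₃ :: l) = (if e₁ = e₃ then 0 else 1) + dfc (e₂ :: e₃ :: l) := rfl
    have h4 : flag (wd (e₁ :: e₂ :: e₃ :: l)) = upd .A (upd (bl e₁) (flag (wd (e₂ :: e₃ :: l)))) := rfl
    have h5 : evt (wd (e₁ :: e₂ :: e₃ :: l)) = evt (wd (e₂ :: e₃ :: l)) +
        (if flag (wd (e₂ :: e₃ :: l)) (pt (bl e₁)) = typ (bl e₁) then 1 else 0) +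
        (if upd (bl e₁) (flag (wd (e₂ :: e₃ :: l))) (pt .A) = typ .A then 1 else 0) := rfl
    rw [h3, h4, h5]
    omega

theorem dfc_le (l : List Bool) : dfc l ≤ evt (wd l) + 4 := by
  match l with
  | [] => simp [dfc]
  | [_] => simp [dfc]
  | e₁ :: e₂ :: l =>
    have := dfc_le_aux l e₁ e₂
    omega

theorem length_wd (l : List Bool) : (wd l).length = 2 * l.length := by
  induction l with
  | nil => rfl
  | cons e l ih => simp only [wd, List.length_cons, ih]; ring

/-- **Contraction**: the total length of the sections of `wd l` is at most its length minus the number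
of defects of `l` plus `9`. -/
theorem contraction (l : List Bool) : ∃ u : X → List Lt,
    (∀ x, ev (u x) = ev (sec (wd l) x)) ∧ (∑ x, (u x).length) + dfc l ≤ 2 * l.length + 9 := by
  choose u h1 h2 using fun x : X => short (sec (wd l) x)
  refine ⟨u, h1, ?_⟩
  have h3 : ∑ x, ((u x).length + adj (sec (wd l) x)) ≤ ∑ x, (sec (wd l) x).length :=
    Finset.sum_le_sum fun x _ => h2 x
  rw [sum_length_sec, length_wd, Finset.sum_add_distrib] at h3
  have h4 := dfc_le l
  have h5 := evt_le (wd l)
  have h6 : ∑ x, adj1 (sec (wd l) x) ≤ ∑ x : X, (adj (sec (wd l) x) + 1) :=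
    Finset.sum_le_sum fun x _ => adj1_le _
  rw [Finset.sum_add_distrib] at h6
  have h7 : ∑ _x : X, 1 = 5 := by simp
  rw [h7] at h6
  omega

/-! ### Every element is represented by an alternating word -/

theorem alt (w : List Lt) : ∃ (u : List Lt) (l : List Bool) (v : List Lt),
    (u = [] ∨ u = [.B] ∨ u = [.C]) ∧ (v = [] ∨ v = [.A]) ∧ ev w = ev (u ++ wd l ++ v) ∧
    u.length + 2 * l.length + v.length ≤ w.length := by
  induction w with
  | nil => exact ⟨[], [], [], by simp, by simp, rfl, by simp⟩
  | cons s w ih =>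
    obtain ⟨u, l, v, hu, hv, he, hl⟩ := ih
    have hcons : ∀ u' : List Lt, ev u' = gen s * ev u → ev (s :: w) = ev (u' ++ wd l ++ v) := by
      intro u' h
      rw [ev_cons, he, ev_append, ev_append, ev_append, ev_append, h]
      group
    cases s with
    | A =>
      rcases hu with rfl | rfl | rfl
      · cases l with
        | nil =>
          rcases hv with rfl | rfl
          · refine ⟨[], [], [.A], by simp, by simp, ?_, by simp at hl ⊢⟩
            rw [ev_cons, he]
            rfl
          · refine ⟨[], [], [], by simp, by simp, ?_, by simp⟩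
            rw [ev_cons, he]
            simp [ev, wd, AA]
        | cons e l =>
          refine ⟨[bl e], l, v, by cases e <;> simp [bl], hv, ?_, ?_⟩
          · rw [ev_cons, he]
            simp only [wd, List.nil_append, List.cons_append, ev_cons]
            rw [← mul_assoc, AA, one_mul]
          · simp only [List.length_cons, List.length_nil] at hl ⊢
            omega
      · refine ⟨[], true :: l, v, by simp, hv, ?_, ?_⟩
        · rw [ev_cons, he]
          simp [wd, bl, ev]
        · simp only [List.length_cons, List.length_nil] at hl ⊢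
          omega
      · refine ⟨[], false :: l, v, by simp, hv, ?_, ?_⟩
        · rw [ev_cons, he]
          simp [wd, bl, ev]
        · simp only [List.length_cons, List.length_nil] at hl ⊢
          omega
    | B =>
      rcases hu with rfl | rfl | rfl
      · refine ⟨[.B], l, v, by simp, hv, hcons _ (by simp [ev]), ?_⟩
        simp only [List.length_cons, List.length_nil] at hl ⊢
        omega
      · refine ⟨[.C], l, v, by simp, hv, hcons _ (by simp [ev, BB]), ?_⟩
        simp only [List.length_cons, List.length_nil] at hl ⊢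
        omega
      · refine ⟨[], l, v, by simp, hv, hcons _ (by simp [ev, BC]), ?_⟩
        simp only [List.length_cons, List.length_nil] at hl ⊢
        omega
    | C =>
      rcases hu with rfl | rfl | rfl
      · refine ⟨[.C], l, v, by simp, hv, hcons _ (by simp [ev]), ?_⟩
        simp only [List.length_cons, List.length_nil] at hl ⊢
        omega
      · refine ⟨[], l, v, by simp, hv, hcons _ (by simp [ev, CB]), ?_⟩
        simp only [List.length_cons, List.length_nil] at hl ⊢
        omega
      · refine ⟨[.B], l, v, by simp, hv, hcons _ (by simp [ev, CC]), ?_⟩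
        simp only [List.length_cons, List.length_nil] at hl ⊢
        omega

end Pool.Agent.R638.A5
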