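import Pool.Agent.R638.A5.Contr

set_option autoImplicit false

/-!
# Counting
-/

namespace Pool.Agent.R638.A5

open Finset

/-! ### Words -/

/-- Words of length at most `n`. -/
def wds : ℕ → Finset (List Lt)
  | 0 => {[]}
  | n + 1 => {[]} ∪ ((wds n).image (List.cons .A) ∪ ((wds n).image (List.cons .B) ∪
      (wds n).image (List.cons .C)))

theorem mem_wds (n : ℕ) (w : List Lt) : w ∈ wds n ↔ w.length ≤ n := by
  induction n generalizing w with
  | zero => simp [wds]
  | succ n ih =>
    cases w with
    | nil => simp [wds]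
    | cons s w =>
      simp only [wds, mem_union, mem_image, mem_singleton, List.cons.injEq, List.length_cons,
        reduceCtorEq, false_or, Nat.add_le_add_iff_right]
      constructor
      · rintro (⟨a, h, -, rfl⟩ | ⟨a, h, -, rfl⟩ | ⟨a, h, -, rfl⟩) <;> exact (ih _).1 h
      · intro h
        cases s
        · exact .inl ⟨w, (ih _).2 h, rfl, rfl⟩
        · exact .inr (.inl ⟨w, (ih _).2 h, rfl, rfl⟩)
        · exact .inr (.inr ⟨w, (ih _).2 h, rfl, rfl⟩)

theorem card_wds (n : ℕ) : (wds n).card ≤ 4 ^ n := by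
  induction n with
  | zero => simp [wds]
  | succ n ih =>
    have h1 := card_union_le ({[]} : Finset (List Lt)) ((wds n).image (List.cons .A) ∪
      ((wds n).image (List.cons .B) ∪ (wds n).image (List.cons .C)))
    have h2 := card_union_le ((wds n).image (List.cons Lt.A))
      ((wds n).image (List.cons Lt.B) ∪ (wds n).image (List.cons Lt.C))
    have h3 := card_union_le ((wds n).image (List.cons Lt.B)) ((wds n).image (List.cons Lt.C))
    have hA := card_image_le (s := wds n) (f := List.cons Lt.A)
    have hB := card_image_le (s := wds n) (f := List.cons Lt.B)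
    have hC := card_image_le (s := wds n) (f := List.cons Lt.C)
    have h4 : 1 ≤ 4 ^ n := Nat.one_le_pow _ _ (by norm_num)
    rw [card_singleton] at h1
    have h5 : (4:ℕ) ^ (n + 1) = 4 * 4 ^ n := by ring
    rw [h5]
    show ({[]} ∪ _ : Finset (List Lt)).card ≤ _
    omega

open Classical in
/-- The ball of radius `n`. -/
noncomputable def Bn (n : ℕ) : Finset P := (wds n).image ev

theorem mem_Bn (n : ℕ) (g : P) : g ∈ Bn n ↔ ∃ w : List Lt, w.length ≤ n ∧ ev w = g := by
  classical
  simp only [Bn, mem_image, mem_wds]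

theorem card_Bn_le (n : ℕ) : (Bn n).card ≤ 4 ^ n := by
  classical
  exact card_image_le.trans (card_wds n)

/-! ### Sign lists -/

/-- Lists of length `m`. -/
def Ls : ℕ → Finset (List Bool)
  | 0 => {[]}
  | m + 1 => (Ls m).image (List.cons true) ∪ (Ls m).image (List.cons false)

theorem mem_Ls (m : ℕ) (l : List Bool) : l ∈ Ls m ↔ l.length = m := by
  induction m generalizing l with
  | zero => simp [Ls]
  | succ m ih =>
    cases l with
    | nil => simp [Ls]
    | cons e l =>
      simp only [Ls, mem_union, mem_image, List.cons.injEq, List.length_cons,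
        Nat.add_right_cancel_iff]
      constructor
      · rintro (⟨a, h, -, rfl⟩ | ⟨a, h, -, rfl⟩) <;> exact (ih _).1 h
      · intro h
        cases e
        · exact .inr ⟨l, (ih _).2 h, rfl, rfl⟩
        · exact .inl ⟨l, (ih _).2 h, rfl, rfl⟩

theorem sum_Ls (m : ℕ) (F : List Bool → ℝ) :
    ∑ l ∈ Ls (m + 1), F l = ∑ l ∈ Ls m, (F (true :: l) + F (false :: l)) := by
  rw [sum_add_distrib, Ls, sum_union, sum_image, sum_image]
  · intro a _ b _ h
    exact (List.cons.inj h).2
  · intro a _ b _ h
    exact (List.cons.inj h).2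
  · rw [disjoint_left]
    intro l h1 h2
    rw [mem_image] at h1 h2
    obtain ⟨a, -, rfl⟩ := h1
    obtain ⟨b, -, h⟩ := h2
    have := (List.cons.inj h).1
    exact absurd this (by decide)

theorem sum_pow_dfc (x : ℝ) (hx : 0 < x) (m : ℕ) :
    ∑ l ∈ Ls m, x ^ dfc l ≤ 4 * (1 + x) ^ m := by
  match m with
  | 0 =>
    have : Ls 0 = {[]} := rfl
    rw [this, sum_singleton]
    simp [dfc]
  | 1 =>
    rw [sum_Ls]
    have : Ls 0 = {[]} := rfl
    rw [this, sum_singleton]
    simp only [dfc, pow_zero, pow_one]
    linarith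
  | m + 2 =>
    induction m with
    | zero =>
      rw [sum_Ls, sum_Ls]
      have : Ls 0 = {[]} := rfl
      rw [this, sum_singleton]
      simp only [dfc, pow_zero]
      have h : 1 ≤ (1 + x) ^ (0 + 2) := one_le_pow₀ (by linarith)
      linarith
    | succ m ih =>
      rw [sum_Ls]
      have h1 : ∀ l ∈ Ls (m + 2), x ^ dfc (true :: l) + x ^ dfc (false :: l) =
          (1 + x) * x ^ dfc l := by
        intro l hl
        rw [mem_Ls] at hl
        match l, hl with
        | [], hl => simp at hl
        | [_], hl => simp at hl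
        | e₁ :: e₂ :: l, _ =>
          have h2 : ∀ e, dfc (e :: e₁ :: e₂ :: l) = (if e = e₂ then 0 else 1) + dfc (e₁ :: e₂ :: l) :=
            fun _ => rfl
          rw [h2, h2, pow_add, pow_add]
          cases e₂ <;> simp <;> ring
      rw [sum_congr rfl h1, ← mul_sum, pow_succ]
      have h3 : 0 ≤ 1 + x := by linarith
      nlinarith [mul_le_mul_of_nonneg_left ih h3]

theorem card_few (x : ℝ) (hx : 0 < x) (hx1 : x ≤ 1) (m j : ℕ) :
    (((Ls m).filter fun l => dfc l < j).card : ℝ) * x ^ j ≤ 4 * (1 + x) ^ m := by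
  refine le_trans ?_ (sum_pow_dfc x hx m)
  rw [← nsmul_eq_mul]
  refine le_trans ?_ (sum_le_sum_of_subset_of_nonneg (filter_subset (fun l => dfc l < j) (Ls m))
    (fun l _ _ => by positivity))
  apply card_nsmul_le_sum
  intro l hl
  have := (mem_filter.1 hl).2
  exact pow_le_pow_of_le_one hx.le hx1 this.le

/-! ### Tuples -/

open Classical in
/-- Tuples of elements of total length at most `m`. -/
noncomputable def Tm (m : ℕ) : Finset (X → P) :=
  ((univ : Finset (X → Fin (m + 1))).filter fun k => ∑ x, (k x : ℕ) ≤ m).biUnion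
    fun k => Fintype.piFinset fun x => Bn (k x)

theorem mem_Tm {m : ℕ} {u : X → List Lt} (h : ∑ x, (u x).length ≤ m) :
    (fun x => ev (u x)) ∈ Tm m := by
  classical
  have hle : ∀ x, (u x).length ≤ m := fun x =>
    (single_le_sum (f := fun x => (u x).length) (fun _ _ => Nat.zero_le _) (mem_univ x)).trans h
  rw [Tm, mem_biUnion]
  refine ⟨fun x => ⟨(u x).length, Nat.lt_succ_of_le (hle x)⟩, ?_, ?_⟩
  · rw [mem_filter]
    exact ⟨mem_univ _, h⟩
  · rw [Fintype.mem_piFinset]
    intro x
    rw [mem_Bn]
    exact ⟨u x, le_rfl, rfl⟩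

theorem card_Tm (C μ : ℝ) (hC : 0 ≤ C) (hμ : 1 ≤ μ) (hN : ∀ n, ((Bn n).card : ℝ) ≤ C * μ ^ n)
    (m : ℕ) : ((Tm m).card : ℝ) ≤ ((m : ℝ) + 1) ^ 5 * (C ^ 5 * μ ^ m) := by
  classical
  have h1 : ((Tm m).card : ℝ) ≤
      ∑ k ∈ (univ : Finset (X → Fin (m + 1))).filter (fun k => ∑ x, (k x : ℕ) ≤ m),
        ((Fintype.piFinset fun x => Bn (k x)).card : ℝ) := by
    exact_mod_cast card_biUnion_le
  refine h1.trans ?_
  have h2 : ∀ k ∈ (univ : Finset (X → Fin (m + 1))).filter (fun k => ∑ x, (k x : ℕ) ≤ m),
      ((Fintype.piFinset fun x => Bn (k x)).card : ℝ) ≤ C ^ 5 * μ ^ m := by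
    intro k hk
    rw [Fintype.card_piFinset]
    push_cast
    calc ∏ x, ((Bn (k x)).card : ℝ) ≤ ∏ x : X, (C * μ ^ (k x : ℕ)) :=
          prod_le_prod (fun _ _ => by positivity) fun x _ => hN _
      _ = C ^ 5 * μ ^ (∑ x, (k x : ℕ)) := by
          rw [prod_mul_distrib, prod_pow_eq_pow_sum]
          simp
      _ ≤ C ^ 5 * μ ^ m := by
          apply mul_le_mul_of_nonneg_left _ (by positivity)
          exact pow_le_pow_right₀ hμ (mem_filter.1 hk).2
  refine (sum_le_card_nsmul _ _ _ h2).trans ?_
  rw [nsmul_eq_mul]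
  apply mul_le_mul_of_nonneg_right _ (by positivity)
  have h3 : ((univ : Finset (X → Fin (m + 1))).filter (fun k => ∑ x, (k x : ℕ) ≤ m)).card ≤
      (m + 1) ^ 5 := by
    refine (card_filter_le _ _).trans ?_
    simp
  exact_mod_cast h3

/-! ### The main inequality -/

/-- Reconstruction of an element. -/
def rec1 (p : (X → X) × (X → P)) : List X → List X
  | [] => []
  | x :: u => p.1 x :: p.2 x u

theorem card_main (n j : ℕ) : (Bn n).card ≤
    6 * (3125 * (Tm (n + 9 - j)).card +
      ∑ m ∈ range (n / 2 + 1), ((Ls m).filter fun l => dfc l < j).card) := by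
  classical
  set F1 : Finset (List X → List X) :=
    ((univ : Finset (X → X)) ×ˢ Tm (n + 9 - j)).image rec1 with hF1
  set F2 : Finset (List X → List X) :=
    ((range (n / 2 + 1)).biUnion fun m => (Ls m).filter fun l => dfc l < j).image
      (fun l => (ev (wd l) : List X → List X)) with hF2
  set U : Finset (List Lt) := {[], [.B], [.C]} with hU
  set V : Finset (List Lt) := {[], [.A]} with hV
  have hF1c : F1.card ≤ 3125 * (Tm (n + 9 - j)).card := by
    refine card_image_le.trans ?_
    rw [card_product]
    simp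
  have hF2c : F2.card ≤ ∑ m ∈ range (n / 2 + 1), ((Ls m).filter fun l => dfc l < j).card :=
    card_image_le.trans card_biUnion_le
  have hUc : U.card ≤ 3 := card_le_three
  have hVc : V.card ≤ 2 := card_le_two
  have hsub : (Bn n).image (fun g : P => (g : List X → List X)) ⊆
      (U ×ˢ V ×ˢ (F1 ∪ F2)).image
        (fun t => (fun w : List X => ev t.1 (t.2.2 (ev t.2.1 w)) : List X → List X)) := by
    intro f hf
    rw [mem_image] at hf
    obtain ⟨g, hg, rfl⟩ := hf
    rw [mem_Bn] at hg
    obtain ⟨w, hw, rfl⟩ := hg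
    obtain ⟨u, l, v, hu, hv, he, hl⟩ := alt w
    rw [mem_image]
    refine ⟨(u, v, (ev (wd l) : List X → List X)), ?_, ?_⟩
    · rw [mem_product, mem_product, mem_union]
      refine ⟨?_, ?_, ?_⟩
      · show u ∈ U
        rcases hu with rfl | rfl | rfl <;> simp [hU]
      · show v ∈ V
        rcases hv with rfl | rfl <;> simp [hV]
      · show (ev (wd l) : List X → List X) ∈ F1 ∨ (ev (wd l) : List X → List X) ∈ F2
        by_cases hd : dfc l < j
        · right
          rw [hF2, mem_image]
          refine ⟨l, ?_, rfl⟩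
          rw [mem_biUnion]
          refine ⟨l.length, mem_range.2 (by omega), ?_⟩
          rw [mem_filter, mem_Ls]
          exact ⟨rfl, hd⟩
        · left
          obtain ⟨u', h1, h2⟩ := contraction l
          rw [hF1, mem_image]
          refine ⟨(rtw (wd l), fun x => ev (u' x)), ?_, ?_⟩
          · rw [mem_product]
            exact ⟨mem_univ _, mem_Tm (by omega)⟩
          · funext y
            cases y with
            | nil => exact (ev_apply_nil _).symm
            | cons x y =>
              show rtw (wd l) x :: ev (u' x) y = ev (wd l) (x :: y)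
              rw [ev_apply_cons, h1]
    · funext y
      show ev u (ev (wd l) (ev v y)) = ev w y
      rw [he, ev_append, ev_append]
      rfl
  have h1 := card_le_card hsub
  have h2 : ((Bn n).image (fun g : P => (g : List X → List X))).card = (Bn n).card :=
    card_image_of_injective _ fun g h e => Equiv.ext fun w => congrFun e w
  rw [h2] at h1
  refine (h1.trans card_image_le).trans ?_
  rw [card_product, card_product]
  have h3 := card_union_le F1 F2
  calc U.card * (V.card * (F1 ∪ F2).card) ≤ 3 * (2 * (F1.card + F2.card)) :=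
        Nat.mul_le_mul hUc (Nat.mul_le_mul hVc h3)
    _ = 6 * (F1.card + F2.card) := by ring
    _ ≤ _ := by
      apply Nat.mul_le_mul_left
      omega

end Pool.Agent.R638.A5
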