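import Pool.Agent.R638.A5.Basic

set_option autoImplicit false

/-!
# Density in the iterated wreath product of alternating groups of degree 5
-/

namespace Pool.Agent.R638.A5

open scoped commutatorElement

theorem pinv {α : Type} (g : Equiv.Perm α) (y : α) : g (g⁻¹ y) = y := Equiv.apply_symm_apply g y

theorem pinv' {α : Type} (g : Equiv.Perm α) (y : α) : g⁻¹ (g y) = y := Equiv.symm_apply_apply g y

/-- The group `W`: the permutations of the set of words which fix the empty word and whose local
permutation at every word `w` exists and lies in the alternating group, that is, automorphisms of the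
tree all of whose local permutations are even. -/
def W : Subgroup P where
  carrier := {g | g [] = [] ∧ ∀ w : List X, ∃ π ∈ alternatingGroup X, ∀ x : X,
    g (w ++ [x]) = g w ++ [π x]}
  one_mem' := ⟨rfl, fun w => ⟨1, one_mem _, fun x => rfl⟩⟩
  mul_mem' := by
    rintro g h ⟨hg0, hg⟩ ⟨hh0, hh⟩
    refine ⟨?_, fun w => ?_⟩
    · rw [Equiv.Perm.mul_apply, hh0, hg0]
    · obtain ⟨π, hπ, h1⟩ := hh w
      obtain ⟨ρ, hρ, h2⟩ := hg (h w)
      refine ⟨ρ * π, mul_mem hρ hπ, fun x => ?_⟩
      rw [Equiv.Perm.mul_apply, h1, h2]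
      rfl
  inv_mem' := by
    rintro g ⟨hg0, hg⟩
    refine ⟨?_, fun w => ?_⟩
    · rw [Equiv.Perm.inv_eq_iff_eq, hg0]
    · obtain ⟨π, hπ, h1⟩ := hg (g⁻¹ w)
      refine ⟨π⁻¹, inv_mem hπ, fun x => ?_⟩
      rw [Equiv.Perm.inv_eq_iff_eq, h1, pinv, pinv]

/-- The group generated by `a` and `b`. -/
def Gam : Subgroup P := Subgroup.closure {gen .A, gen .B}

theorem gen_mem (s : Lt) : gen s ∈ Gam := by
  cases s with
  | A => exact Subgroup.subset_closure (by simp)
  | B => exact Subgroup.subset_closure (by simp)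
  | C =>
    have : gen .C = (gen .B)⁻¹ := gen_iv .B
    rw [this]
    exact inv_mem (Subgroup.subset_closure (by simp))

theorem ev_mem (w : List Lt) : ev w ∈ Gam := by
  induction w with
  | nil => exact one_mem _
  | cons s w ih => rw [ev_cons]; exact mul_mem (gen_mem s) ih

/-- The inverse word. -/
def invw (w : List Lt) : List Lt := (w.map iv).reverse

theorem ev_invw (w : List Lt) : ev (invw w) = (ev w)⁻¹ := by
  induction w with
  | nil => simp [invw, ev]
  | cons s w ih =>
    have : invw (s :: w) = invw w ++ [iv s] := by simp [invw]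
    rw [this, ev_append, ih, ev_cons s w, mul_inv_rev, ev_cons, ev_nil, mul_one, gen_iv]

theorem exists_word {g : P} (hg : g ∈ Gam) : ∃ w, ev w = g := by
  induction hg using Subgroup.closure_induction with
  | mem x hx =>
    rcases hx with rfl | hx
    · exact ⟨[.A], by simp [ev]⟩
    · rw [Set.mem_singleton_iff] at hx
      exact ⟨[.B], by simp [ev, hx]⟩
  | one => exact ⟨[], rfl⟩
  | mul x y _ _ hx hy =>
    obtain ⟨u, rfl⟩ := hx
    obtain ⟨v, rfl⟩ := hy
    exact ⟨u ++ v, ev_append u v⟩
  | inv x _ hx =>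
    obtain ⟨u, rfl⟩ := hx
    exact ⟨invw u, ev_invw u⟩

/-- The root permutation of a letter. -/
def rtp (s : Lt) : Equiv.Perm X where
  toFun := rt s
  invFun := rt (iv s)
  left_inv := rt_iv s
  right_inv := rt_iv' s

theorem rtp_mem (s : Lt) : rtp s ∈ alternatingGroup X := by
  rw [Equiv.Perm.mem_alternatingGroup]
  cases s <;> decide

theorem act_append (s : Lt) (w : List X) : ∃ π ∈ alternatingGroup X, ∀ x : X,
    act s (w ++ [x]) = act s w ++ [π x] := by
  induction w with
  | nil =>
    refine ⟨rtp s, rtp_mem s, fun x => ?_⟩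
    show rt s x :: (if x = pt s then act s [] else []) = [rt s x]
    rw [act_nil, ite_self]
  | cons y w ih =>
    by_cases h : y = pt s
    · obtain ⟨π, hπ, h1⟩ := ih
      refine ⟨π, hπ, fun x => ?_⟩
      rw [List.cons_append, act_cons, act_cons, if_pos h, if_pos h, h1]
      rfl
    · refine ⟨1, one_mem _, fun x => ?_⟩
      rw [List.cons_append, act_cons, act_cons, if_neg h, if_neg h]
      rfl

theorem gen_mem_W (s : Lt) : gen s ∈ W := ⟨rfl, fun w => act_append s w⟩

theorem Gam_le_W : Gam ≤ W := by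
  rw [Gam, Subgroup.closure_le]
  rintro x (rfl | hx)
  · exact gen_mem_W _
  · rw [Set.mem_singleton_iff] at hx
    rw [hx]
    exact gen_mem_W _

/-! ### Elements acting below the vertex `0` -/

/-- The map acting as `k` below the vertex `0`. -/
def putF (k : P) : List X → List X
  | [] => []
  | x :: u => if x = 0 then 0 :: k u else x :: u

theorem putF_mul (k l : P) (w : List X) : putF k (putF l w) = putF (k * l) w := by
  cases w with
  | nil => rfl
  | cons x u =>
    by_cases h : x = 0
    · simp [putF, h]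
    · simp [putF, h]

theorem putF_one (w : List X) : putF 1 w = w := by
  cases w with
  | nil => rfl
  | cons x u =>
    by_cases h : x = 0
    · simp [putF, h]
    · simp [putF, h]

/-- The element acting as `k` below the vertex `0`. -/
def put (k : P) : P where
  toFun := putF k
  invFun := putF k⁻¹
  left_inv w := by rw [putF_mul, inv_mul_cancel, putF_one]
  right_inv w := by rw [putF_mul, mul_inv_cancel, putF_one]

theorem put_nil (k : P) : put k [] = [] := rfl
theorem put_zero (k : P) (u : List X) : put k (0 :: u) = 0 :: k u := rfl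
theorem put_ne (k : P) {x : X} (h : x ≠ 0) (u : List X) : put k (x :: u) = x :: u := by
  show putF k (x :: u) = _
  simp [putF, h]
theorem put_mul (k l : P) : put (k * l) = put k * put l :=
  Equiv.ext fun w => (putF_mul k l w).symm
theorem put_inv (k : P) : put k⁻¹ = (put k)⁻¹ := Equiv.ext fun _ => rfl
theorem put_one : put 1 = 1 := Equiv.ext fun w => putF_one w

/-! ### Normal forms -/

/-- Adding a letter to a normal form. -/
def push : Lt → List Lt → List Lt
  | .A, .A :: w => w
  | .B, .B :: w => .C :: w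
  | .B, .C :: w => w
  | .C, .B :: w => w
  | .C, .C :: w => .B :: w
  | s, w => s :: w

theorem ev_push (s : Lt) (w : List Lt) : ev (push s w) = gen s * ev w := by
  rcases s with _ | _ | _ <;> rcases w with _ | ⟨_ | _ | _, w⟩ <;>
    simp only [push, ev_cons, ← mul_assoc, AA, BB, BC, CB, CC, one_mul]

/-- Normal form. -/
def nf : List Lt → List Lt
  | [] => []
  | s :: w => push s (nf w)

theorem ev_nf (w : List Lt) : ev (nf w) = ev w := by
  induction w with
  | nil => rfl
  | cons s w ih => rw [nf, ev_push, ih, ev_cons]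

/-- The word `acababacacabacababacacab`. -/
def w0 : List Lt := [.A, .C, .A, .B, .A, .B, .A, .C, .A, .C, .A, .B, .A, .C, .A, .B, .A, .B, .A, .C,
  .A, .C, .A, .B]

/-- The word `abacabac`. -/
def w1 : List Lt := [.A, .B, .A, .C, .A, .B, .A, .C]

theorem put_w1 : put (ev w1) = ev w0 := by
  apply Equiv.ext
  intro w
  cases w with
  | nil => rw [put_nil, ev_apply_nil]
  | cons x u =>
    rw [ev_apply_cons, ← ev_nf (sec w0 x)]
    have h : ∀ x : X, rtw w0 x = x ∧ nf (sec w0 x) = if x = 0 then w1 else [] := by decide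
    obtain ⟨h1, h2⟩ := h x
    rw [h1, h2]
    by_cases hx : x = 0
    · rw [if_pos hx, hx, put_zero]
    · rw [if_neg hx, put_ne _ hx]
      rfl

/-! ### Self-replication -/

/-- A word mapping `0 u` to `2 u`. -/
theorem t_apply (u : List X) : ev [.A, .B] (0 :: u) = 2 :: u := by
  rw [ev_apply_cons]
  rfl

theorem t_inv_apply (u : List X) : (ev [.A, .B])⁻¹ (2 :: u) = 0 :: u := by
  rw [← t_apply, pinv']

theorem lift_gen (s : Lt) : ∃ g ∈ Gam, ∀ u : List X, g (0 :: u) = 0 :: gen s u := by
  cases s with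
  | A => exact ⟨gen .A, gen_mem _, fun u => rfl⟩
  | B =>
    refine ⟨(ev [.A, .B])⁻¹ * gen .B * ev [.A, .B],
      mul_mem (mul_mem (inv_mem (ev_mem _)) (gen_mem _)) (ev_mem _), fun u => ?_⟩
    rw [Equiv.Perm.mul_apply, Equiv.Perm.mul_apply, t_apply]
    have : gen .B (2 :: u) = 2 :: gen .B u := rfl
    rw [this, t_inv_apply]
  | C =>
    refine ⟨(ev [.A, .B])⁻¹ * gen .C * ev [.A, .B],
      mul_mem (mul_mem (inv_mem (ev_mem _)) (gen_mem _)) (ev_mem _), fun u => ?_⟩
    rw [Equiv.Perm.mul_apply, Equiv.Perm.mul_apply, t_apply]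
    have : gen .C (2 :: u) = 2 :: gen .C u := rfl
    rw [this, t_inv_apply]

/-- Every element of `Gam` is the section at `0` of an element of `Gam` fixing `0`. -/
theorem lift {s : P} (hs : s ∈ Gam) : ∃ g ∈ Gam, ∀ u : List X, g (0 :: u) = 0 :: s u := by
  obtain ⟨w, rfl⟩ := exists_word hs
  induction w with
  | nil => exact ⟨1, one_mem _, fun u => rfl⟩
  | cons s w ih =>
    obtain ⟨g, hg, h1⟩ := ih (ev_mem w)
    obtain ⟨h, hh, h2⟩ := lift_gen s
    refine ⟨h * g, mul_mem hh hg, fun u => ?_⟩
    rw [Equiv.Perm.mul_apply, h1, h2, ev_cons]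
    rfl

/-- Sections. -/
theorem exists_sec {g : P} (hg : g ∈ Gam) (x : X) : ∃ y : X, ∃ h ∈ Gam, ∀ u : List X,
    g (x :: u) = y :: h u := by
  obtain ⟨w, rfl⟩ := exists_word hg
  exact ⟨rtw w x, ev (sec w x), ev_mem _, fun u => ev_apply_cons w x u⟩

/-! ### The subgroups `K` and `M` -/

/-- The elements `k` such that the element acting as `k` below `0` is in the group. -/
def K : Subgroup P where
  carrier := {k | k ∈ Gam ∧ put k ∈ Gam}
  one_mem' := ⟨one_mem _, by rw [put_one]; exact one_mem _⟩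
  mul_mem' := by
    rintro k l ⟨h1, h2⟩ ⟨h3, h4⟩
    exact ⟨mul_mem h1 h3, by rw [put_mul]; exact mul_mem h2 h4⟩
  inv_mem' := by
    rintro k ⟨h1, h2⟩
    exact ⟨inv_mem h1, by rw [put_inv]; exact inv_mem h2⟩

theorem K_conj {k s : P} (hk : k ∈ K) (hs : s ∈ Gam) : s * k * s⁻¹ ∈ K := by
  refine ⟨mul_mem (mul_mem hs hk.1) (inv_mem hs), ?_⟩
  obtain ⟨g, hg, h1⟩ := lift hs
  have e : put (s * k * s⁻¹) = g * put k * g⁻¹ := by
    rw [eq_mul_inv_iff_mul_eq]
    apply Equiv.ext
    intro w
    rw [Equiv.Perm.mul_apply, Equiv.Perm.mul_apply]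
    cases w with
    | nil =>
      have h2 : g [] = [] := (Gam_le_W hg).1
      rw [h2, put_nil, put_nil, h2]
    | cons x u =>
      by_cases hx : x = 0
      · rw [hx, h1, put_zero, put_zero, h1, Equiv.Perm.mul_apply, Equiv.Perm.mul_apply, pinv']
      · obtain ⟨y, h, -, h2⟩ := exists_sec hg x
        have hy : y ≠ 0 := by
          intro hy
          have h3 := h2 []
          rw [hy] at h3
          have h4 := h1 (s⁻¹ (h []))
          rw [pinv] at h4
          have h5 := g.injective (h3.trans h4.symm)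
          exact hx (List.cons.inj h5).1
        rw [h2, put_ne _ hy, put_ne _ hx, h2]
  rw [e]
  exact mul_mem (mul_mem hg hk.2) (inv_mem hg)

theorem w1_mem : ev w1 ∈ K := ⟨ev_mem _, by rw [put_w1]; exact ev_mem _⟩

/-- Commutators with elements moving the vertex `0`. -/
theorem comm_put (k x : P) (i : X) (hi : i ≠ 0) (x0 : P) (hx0 : x [] = [])
    (hx : ∀ u : List X, x (0 :: u) = i :: x0 u) :
    let c := put k * x * (put k)⁻¹ * x⁻¹
    c [] = [] ∧ (∀ u, c (0 :: u) = 0 :: k u) ∧ (∀ u, c (i :: u) = i :: (x0 * k⁻¹ * x0⁻¹) u) ∧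
      ∀ z : X, z ≠ 0 → z ≠ i → ∀ u, c (z :: u) = z :: u := by
  intro c
  have hxi : ∀ u, x⁻¹ (i :: u) = 0 :: x0⁻¹ u := by
    intro u
    rw [Equiv.Perm.inv_eq_iff_eq, hx, pinv]
  have hxn : x⁻¹ [] = [] := by rw [Equiv.Perm.inv_eq_iff_eq, hx0]
  have hother : ∀ (z : X) (u : List X), z ≠ i → (put k)⁻¹ (x⁻¹ (z :: u)) = x⁻¹ (z :: u) := by
    intro z u hz
    rw [← put_inv]
    cases hv : x⁻¹ (z :: u) with
    | nil => rw [put_nil]
    | cons a b =>
      have ha : a ≠ 0 := by
        rintro rfl
        rw [Equiv.Perm.inv_eq_iff_eq, hx] at hv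
        exact hz (List.cons.inj hv).1
      rw [put_ne _ ha]
  refine ⟨?_, fun u => ?_, fun u => ?_, fun z hz hzi u => ?_⟩
  · show put k (x ((put k)⁻¹ (x⁻¹ []))) = []
    rw [hxn, ← put_inv, put_nil, hx0, put_nil]
  · show put k (x ((put k)⁻¹ (x⁻¹ (0 :: u)))) = _
    rw [hother 0 u hi.symm, pinv, put_zero]
  · show put k (x ((put k)⁻¹ (x⁻¹ (i :: u)))) = _
    rw [hxi, ← put_inv, put_zero, hx, put_ne _ hi]
    rfl
  · show put k (x ((put k)⁻¹ (x⁻¹ (z :: u)))) = _
    rw [hother z u hzi, pinv, put_ne _ hz]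

/-- The commutator subgroup of `K`. -/
def M : Subgroup P := ⁅K, K⁆

theorem M_le_K : M ≤ K := Subgroup.commutator_le_self K

theorem M_conj {m s : P} (hm : m ∈ M) (hs : s ∈ Gam) : s * m * s⁻¹ ∈ M := by
  have h : M ≤ M.comap (MulAut.conj s).toMonoidHom := by
    show ⁅K, K⁆ ≤ _
    rw [Subgroup.commutator_le]
    intro k hk l hl
    rw [Subgroup.mem_comap]
    have e : (MulAut.conj s).toMonoidHom ⁅k, l⁆ = ⁅s * k * s⁻¹, s * l * s⁻¹⁆ := by
      show s * ⁅k, l⁆ * s⁻¹ = _
      simp only [commutatorElement_def]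
      group
    rw [e]
    exact Subgroup.commutator_mem_commutator (K_conj hk hs) (K_conj hl hs)
  exact h hm

theorem put_comm {k l : P} (hk : k ∈ K) (hl : l ∈ K) : put ⁅k, l⁆ ∈ M := by
  have hx : ∀ u : List X, ev w1 (0 :: u) = 1 :: ev (sec w1 0) u := fun u => ev_apply_cons w1 0 u
  have hy : ∀ u : List X, ev (w1 ++ w1) (0 :: u) = 4 :: ev (sec (w1 ++ w1) 0) u := fun u =>
    ev_apply_cons (w1 ++ w1) 0 u
  have hyK : ev (w1 ++ w1) ∈ K := by rw [ev_append]; exact mul_mem w1_mem w1_mem
  have hc : ∀ (k : P), k ∈ K → ∀ x : P, x ∈ K → put k * x * (put k)⁻¹ * x⁻¹ ∈ K := fun k hk x hx =>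
    mul_mem (K_conj hx hk.2) (inv_mem hx)
  have h1 := hc k hk (ev w1) w1_mem
  have h2 := hc l hl (ev (w1 ++ w1)) hyK
  obtain ⟨a0, a1, a2, a3⟩ := comm_put k (ev w1) 1 (by decide) _ (ev_apply_nil _) hx
  obtain ⟨b0, b1, b2, b3⟩ := comm_put l (ev (w1 ++ w1)) 4 (by decide) _ (ev_apply_nil _) hy
  set c := put k * ev w1 * (put k)⁻¹ * (ev w1)⁻¹
  set d := put l * ev (w1 ++ w1) * (put l)⁻¹ * (ev (w1 ++ w1))⁻¹
  clear_value c d
  have e : put ⁅k, l⁆ = ⁅c, d⁆ := by
    rw [commutatorElement_def c d, eq_mul_inv_iff_mul_eq, eq_mul_inv_iff_mul_eq]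
    apply Equiv.ext
    intro w
    rw [Equiv.Perm.mul_apply, Equiv.Perm.mul_apply, Equiv.Perm.mul_apply]
    cases w with
    | nil => rw [a0, b0, a0, put_nil]
    | cons z u =>
      by_cases hz0 : z = 0
      · rw [hz0, a1, b1, put_zero, b1, a1, commutatorElement_def]
        congr 1
        show (k * l * k⁻¹ * l⁻¹) (l (k u)) = k (l u)
        rw [Equiv.Perm.mul_apply, Equiv.Perm.mul_apply, Equiv.Perm.mul_apply, pinv', pinv']
      · by_cases hz1 : z = 1
        · rw [hz1, a2, b3 1 (by decide) (by decide), put_ne _ (by decide),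
            b3 1 (by decide) (by decide), a2]
        · by_cases hz4 : z = 4
          · rw [hz4, a3 4 (by decide) (by decide), b2, put_ne _ (by decide),
              a3 4 (by decide) (by decide)]
          · rw [a3 z hz0 hz1, b3 z hz0 hz4, put_ne _ hz0, a3 z hz0 hz1]
  rw [e]
  exact Subgroup.commutator_mem_commutator h1 h2

theorem put_mem_M {m : P} (hm : m ∈ M) : put m ∈ M := by
  have h : M ≤ M.comap (MonoidHom.mk' put put_mul) := by
    show ⁅K, K⁆ ≤ _
    rw [Subgroup.commutator_le]
    intro k hk l hl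
    exact put_comm hk hl
  exact h hm

/-! ### Root permutations -/

/-- The root permutations of the elements of `Gam`. -/
def G0 : Subgroup (alternatingGroup X) where
  carrier := {π | ∃ g ∈ Gam, ∀ x : X, g [x] = [(π : Equiv.Perm X) x]}
  one_mem' := ⟨1, one_mem _, fun x => rfl⟩
  mul_mem' := by
    rintro π ρ ⟨g, hg, h1⟩ ⟨h, hh, h2⟩
    refine ⟨g * h, mul_mem hg hh, fun x => ?_⟩
    rw [Equiv.Perm.mul_apply, h2, h1]
    rfl
  inv_mem' := by
    rintro π ⟨g, hg, h1⟩
    refine ⟨g⁻¹, inv_mem hg, fun x => ?_⟩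
    rw [Equiv.Perm.inv_eq_iff_eq, h1]
    congr 1
    exact (pinv _ _).symm

/-- Root permutations of letters, as elements of the alternating group. -/
def rta (s : Lt) : alternatingGroup X := ⟨rtp s, rtp_mem s⟩

theorem rta_mem (s : Lt) : rta s ∈ G0 := by
  refine ⟨gen s, gen_mem s, fun x => ?_⟩
  show rt s x :: (if x = pt s then act s [] else []) = [rt s x]
  rw [act_nil, ite_self]

theorem G0_top : G0 = ⊤ := by
  have hcard : Nat.card (alternatingGroup X) = 60 := by
    rw [nat_card_alternatingGroup]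
    simp [Nat.factorial]
  have h2 : 2 ∣ Nat.card G0 := by
    have h : orderOf (⟨rta .A, rta_mem .A⟩ : G0) = 2 := by
      apply orderOf_eq_prime
      · apply Subtype.ext
        apply Subtype.ext
        apply Equiv.ext
        intro x
        show rt .A (rt .A x) = x
        revert x
        decide
      · intro h
        have := congrArg (fun g : G0 => (g : alternatingGroup X) : G0 → alternatingGroup X) h
        have h' := congrArg (fun g : alternatingGroup X => (g : Equiv.Perm X) 1) this
        revert h'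
        decide
    have h' := orderOf_dvd_natCard (⟨_, rta_mem .A⟩ : G0)
    rwa [h] at h'
  have h3 : 3 ∣ Nat.card G0 := by
    have h : orderOf (⟨rta .B, rta_mem .B⟩ : G0) = 3 := by
      apply orderOf_eq_prime
      · apply Subtype.ext
        apply Subtype.ext
        apply Equiv.ext
        intro x
        show rt .B (rt .B (rt .B x)) = x
        revert x
        decide
      · intro h
        have := congrArg (fun g : G0 => (g : alternatingGroup X) : G0 → alternatingGroup X) h
        have h' := congrArg (fun g : alternatingGroup X => (g : Equiv.Perm X) 1) this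
        revert h'
        decide
    have h' := orderOf_dvd_natCard (⟨_, rta_mem .B⟩ : G0)
    rwa [h] at h'
  have hfact : Fact (Nat.Prime 5) := ⟨by norm_num⟩
  have h5 : 5 ∣ Nat.card G0 := by
    have hp : (rtp .A * rtp .B) ^ 5 = 1 := by
      apply Equiv.ext
      intro x
      rw [pow_succ, pow_succ, pow_succ, pow_succ, pow_one]
      simp only [Equiv.Perm.mul_apply, Equiv.Perm.one_apply]
      change rt .A (rt .B (rt .A (rt .B (rt .A (rt .B (rt .A (rt .B (rt .A (rt .B x))))))))) = x
      revert x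
      decide
    have hne : rtp .A * rtp .B ≠ 1 := by
      intro h
      have h' : rt .A (rt .B 1) = 1 := congrArg (fun g : Equiv.Perm X => g 1) h
      revert h'
      decide
    have h : orderOf (⟨rta .A * rta .B, mul_mem (rta_mem .A) (rta_mem .B)⟩ : G0) = 5 := by
      apply orderOf_eq_prime
      · apply Subtype.ext
        apply Subtype.ext
        rw [Subgroup.coe_pow, Subgroup.coe_pow]
        exact hp
      · intro h
        apply hne
        have h1 := congrArg Subtype.val h
        exact congrArg Subtype.val h1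
    have h' := orderOf_dvd_natCard (⟨_, mul_mem (rta_mem .A) (rta_mem .B)⟩ : G0)
    rwa [h] at h'
  have h30 : 30 ∣ Nat.card G0 := by
    have h6 : 2 * 3 ∣ Nat.card G0 := Nat.Coprime.mul_dvd_of_dvd_of_dvd (by norm_num) h2 h3
    exact Nat.Coprime.mul_dvd_of_dvd_of_dvd (m := 6) (n := 5) (by norm_num) h6 h5
  have hidx := G0.card_mul_index
  rw [hcard] at hidx
  obtain ⟨k, hk⟩ := h30
  rw [hk] at hidx
  have h7 : k * G0.index = 2 := by nlinarith
  have h8 : G0.index ∣ 2 := ⟨k, by rw [mul_comm]; exact h7.symm⟩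
  rcases (Nat.dvd_prime Nat.prime_two).1 h8 with h | h
  · exact Subgroup.index_eq_one.1 h
  · exfalso
    have hn : G0.Normal := Subgroup.normal_of_index_eq_two h
    have hs : IsSimpleGroup (alternatingGroup X) := alternatingGroup.isSimpleGroup (by simp)
    rcases hs.eq_bot_or_eq_top_of_normal G0 hn with h9 | h9
    · rw [h9, Subgroup.card_bot] at hk
      omega
    · rw [h9, Subgroup.index_top] at h
      omega

theorem exists_root (π : Equiv.Perm X) (hπ : π ∈ alternatingGroup X) :
    ∃ g ∈ Gam, ∀ x : X, g [x] = [π x] := by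
  have : (⟨π, hπ⟩ : alternatingGroup X) ∈ G0 := by rw [G0_top]; exact Subgroup.mem_top _
  exact this

/-- The root permutations of the elements of `M`. -/
def N0 : Subgroup (alternatingGroup X) where
  carrier := {π | ∃ g ∈ M, ∀ x : X, g [x] = [(π : Equiv.Perm X) x]}
  one_mem' := ⟨1, one_mem _, fun x => rfl⟩
  mul_mem' := by
    rintro π ρ ⟨g, hg, h1⟩ ⟨h, hh, h2⟩
    refine ⟨g * h, mul_mem hg hh, fun x => ?_⟩
    rw [Equiv.Perm.mul_apply, h2, h1]
    rfl
  inv_mem' := by
    rintro π ⟨g, hg, h1⟩
    refine ⟨g⁻¹, inv_mem hg, fun x => ?_⟩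
    rw [Equiv.Perm.inv_eq_iff_eq, h1]
    congr 1
    exact (pinv _ _).symm

/-- A word whose element is in `M`. -/
def w2 : List Lt := w1 ++ ([.B] ++ w1 ++ [.C]) ++ invw w1 ++ ([.B] ++ invw w1 ++ [.C])

theorem w2_mem : ev w2 ∈ M := by
  have h1 : gen .B * ev w1 * (gen .B)⁻¹ ∈ K := K_conj w1_mem (gen_mem _)
  have h2 : ev w2 = ⁅ev w1, gen .B * ev w1 * (gen .B)⁻¹⁆ := by
    have hA : gen .C = (gen .B)⁻¹ := gen_iv .B
    have h3 : ev [.B] = gen .B := by simp [ev]
    have h4 : ev [.C] = (gen .B)⁻¹ := by rw [← hA]; simp [ev]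
    rw [w2, commutatorElement_def]
    simp only [ev_append, ev_invw, h3, h4]
    group
  rw [h2]
  exact Subgroup.commutator_mem_commutator w1_mem h1

theorem N0_top : N0 = ⊤ := by
  have hn : N0.Normal := by
    constructor
    rintro π ⟨m, hm, h1⟩ σ
    obtain ⟨g, hg, h2⟩ := exists_root (σ : Equiv.Perm X) σ.2
    refine ⟨g * m * g⁻¹, M_conj hm hg, fun x => ?_⟩
    have h3 : g⁻¹ [x] = [(σ : Equiv.Perm X)⁻¹ x] := by
      rw [Equiv.Perm.inv_eq_iff_eq, h2, pinv]
    rw [Equiv.Perm.mul_apply, Equiv.Perm.mul_apply, h3, h1, h2]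
    rfl
  have hs : IsSimpleGroup (alternatingGroup X) := alternatingGroup.isSimpleGroup (by simp)
  rcases hs.eq_bot_or_eq_top_of_normal N0 hn with h9 | h9
  · exfalso
    obtain ⟨hw0, hw⟩ := Gam_le_W (ev_mem w2)
    obtain ⟨π, hπ, h1⟩ := hw []
    have hmem : (⟨π, hπ⟩ : alternatingGroup X) ∈ N0 := by
      refine ⟨ev w2, w2_mem, fun x => ?_⟩
      have h1x := h1 x
      rw [hw0, List.nil_append, List.nil_append] at h1x
      exact h1x
    rw [h9, Subgroup.mem_bot] at hmem
    have h2 : π = 1 := congrArg Subtype.val hmem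
    have h3 := h1 0
    rw [h2, hw0] at h3
    have h4 : ev w2 [0] = [rtw w2 0] := by
      rw [ev_apply_cons, ev_apply_nil]
    rw [List.nil_append, h4] at h3
    have h5 : rtw w2 0 = 0 := (List.cons.inj h3).1
    revert h5
    decide
  · exact h9

theorem exists_rootM (π : Equiv.Perm X) (hπ : π ∈ alternatingGroup X) :
    ∃ g ∈ M, ∀ x : X, g [x] = [π x] := by
  have : (⟨π, hπ⟩ : alternatingGroup X) ∈ N0 := by rw [N0_top]; exact Subgroup.mem_top _
  exact this

/-! ### Vertices of level `n` -/

/-- Iteration of `put`. -/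
def putn : ℕ → P → P
  | 0, k => k
  | n + 1, k => put (putn n k)

theorem putn_mem {m : P} (hm : m ∈ M) (n : ℕ) : putn n m ∈ M := by
  induction n with
  | zero => exact hm
  | succ n ih => exact put_mem_M ih

theorem putn_apply (n : ℕ) (k : P) (v : List X) :
    putn n k (List.replicate n 0 ++ v) = List.replicate n 0 ++ k v := by
  induction n with
  | zero => rfl
  | succ n ih =>
    rw [List.replicate_succ, List.cons_append, putn, put_zero, ih]
    rfl

theorem putn_ne (n : ℕ) (k : P) (u v : List X) (hu : u.length = n) (h : u ≠ List.replicate n 0) :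
    putn n k (u ++ v) = u ++ v := by
  induction n generalizing u with
  | zero =>
    exfalso
    apply h
    simpa using hu
  | succ n ih =>
    cases u with
    | nil => simp at hu
    | cons x u =>
      rw [List.cons_append, putn]
      by_cases hx : x = 0
      · rw [hx, put_zero, ih u (by simpa using hu)]
        intro h'
        apply h
        rw [hx, h', List.replicate_succ]
      · rw [put_ne _ hx]

theorem W_length {g : P} (hg : g ∈ W) (w : List X) : (g w).length = w.length := by
  induction w using List.reverseRecOn with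
  | nil => rw [hg.1]
  | append_singleton w x ih =>
    obtain ⟨π, -, h⟩ := hg.2 w
    rw [h, List.length_append, List.length_append, ih]
    rfl

theorem trans_level (n : ℕ) : ∀ v : List X, v.length = n → ∃ t ∈ Gam, t (List.replicate n 0) = v := by
  induction n with
  | zero =>
    intro v hv
    have : v = [] := by simpa using hv
    exact ⟨1, one_mem _, by rw [this]; rfl⟩
  | succ n ih =>
    intro v hv
    cases v with
    | nil => simp at hv
    | cons x v =>
      -- move `x` to `0`
      obtain ⟨w, hw⟩ : ∃ w : List Lt, rtw w x = 0 := by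
        have : ∀ x : X, ∃ w ∈ ([[], [.C], [.C, .A], [.B], [.B, .A]] : List (List Lt)),
            rtw w x = 0 := by decide
        obtain ⟨w, -, h⟩ := this x
        exact ⟨w, h⟩
      have h1 : ev w (x :: v) = 0 :: ev (sec w x) v := by rw [ev_apply_cons, hw]
      have h2 : (ev (sec w x) v).length = n := by
        rw [W_length (Gam_le_W (ev_mem _))]
        simpa using hv
      obtain ⟨s, hs, h3⟩ := ih _ h2
      obtain ⟨g, hg, h4⟩ := lift hs
      refine ⟨(ev w)⁻¹ * g, mul_mem (inv_mem (ev_mem w)) hg, ?_⟩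
      rw [Equiv.Perm.mul_apply, List.replicate_succ, h4, h3, ← h1, pinv']

/-- For every vertex `v` and every even permutation `π` there is an element of the group which acts on
the children of `v` as `π` and fixes the children of all the other vertices of the same level. -/
theorem local_elem (v : List X) (π : Equiv.Perm X) (hπ : π ∈ alternatingGroup X) :
    ∃ g ∈ Gam, (∀ x, g (v ++ [x]) = v ++ [π x]) ∧
      ∀ u : List X, u.length = v.length → u ≠ v → ∀ x, g (u ++ [x]) = u ++ [x] := by
  set n := v.length with hn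
  obtain ⟨t, ht, h1⟩ := trans_level n v rfl
  obtain ⟨σ, hσ, h2⟩ := (Gam_le_W ht).2 (List.replicate n 0)
  rw [h1] at h2
  obtain ⟨m, hm, h3⟩ := exists_rootM (σ⁻¹ * π * σ) (mul_mem (mul_mem (inv_mem hσ) hπ) hσ)
  have hmW : putn n m ∈ Gam := (M_le_K (putn_mem hm n)).1
  refine ⟨t * putn n m * t⁻¹, mul_mem (mul_mem ht hmW) (inv_mem ht), fun x => ?_, fun u hu hne x => ?_⟩
  · have h4 : t⁻¹ (v ++ [x]) = List.replicate n 0 ++ [σ⁻¹ x] := by
      rw [Equiv.Perm.inv_eq_iff_eq, h2, pinv]
    rw [Equiv.Perm.mul_apply, Equiv.Perm.mul_apply, h4, putn_apply, h3, h2]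
    simp only [Equiv.Perm.mul_apply, pinv]
  · obtain ⟨ρ, -, h4⟩ := (Gam_le_W (inv_mem ht)).2 u
    have h5 : (t⁻¹ u).length = n := by rw [W_length (Gam_le_W (inv_mem ht)), hu]
    have h6 : t⁻¹ u ≠ List.replicate n 0 := by
      intro h
      rw [Equiv.Perm.inv_eq_iff_eq, h1] at h
      exact hne h
    rw [Equiv.Perm.mul_apply, Equiv.Perm.mul_apply, h4, putn_ne n m _ _ h5 h6, ← h4, pinv]

/-- **Density**. -/
theorem dense {h : P} (hh : h ∈ W) (n : ℕ) : ∃ g ∈ Gam, ∀ w : List X, w.length = n → g w = h w := by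
  classical
  induction n with
  | zero =>
    refine ⟨1, one_mem _, fun w hw => ?_⟩
    have : w = [] := by simpa using hw
    rw [this, hh.1]
    rfl
  | succ n ih =>
    obtain ⟨g, hg, h1⟩ := ih
    set f := g⁻¹ * h with hf
    have hfW : f ∈ W := mul_mem (inv_mem (Gam_le_W hg)) hh
    have hfix : ∀ w : List X, w.length = n → f w = w := by
      intro w hw
      rw [hf, Equiv.Perm.mul_apply, Equiv.Perm.inv_eq_iff_eq, h1 w hw]
    have hloc : ∀ u : List X, ∃ π ∈ alternatingGroup X, u.length = n →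
        ∀ x, f (u ++ [x]) = u ++ [π x] := by
      intro u
      obtain ⟨π, hπ, h2⟩ := hfW.2 u
      refine ⟨π, hπ, fun hu x => ?_⟩
      rw [h2, hfix u hu]
    choose π hπ h2 using hloc
    have key : ∀ S : Finset (List X), (∀ u ∈ S, u.length = n) → ∃ k ∈ Gam,
        ∀ u : List X, u.length = n → ∀ x, k (u ++ [x]) = if u ∈ S then u ++ [π u x] else u ++ [x] := by
      intro S
      induction S using Finset.induction_on with
      | empty =>
        intro _
        exact ⟨1, one_mem _, fun u hu x => by simp⟩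
      | insert v S hv ihS =>
        intro hS
        obtain ⟨k, hk, h3⟩ := ihS fun u hu => hS u (Finset.mem_insert_of_mem hu)
        obtain ⟨e, he, h4, h5⟩ := local_elem v (π v) (hπ v)
        have hvn : v.length = n := hS v (Finset.mem_insert_self _ _)
        refine ⟨e * k, mul_mem he hk, fun u hu x => ?_⟩
        rw [Equiv.Perm.mul_apply, h3 u hu]
        by_cases huv : u = v
        · rw [huv, if_neg hv, h4, if_pos (Finset.mem_insert_self _ _)]
        · by_cases huS : u ∈ S
          · rw [if_pos huS, if_pos (Finset.mem_insert_of_mem huS), h5 u (hu.trans hvn.symm) huv]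
          · rw [if_neg huS, if_neg (by simp [huv, huS]), h5 u (hu.trans hvn.symm) huv]
    have hfin : {w : List X | w.length = n}.Finite := List.finite_length_eq X n
    obtain ⟨k, hk, h3⟩ := key hfin.toFinset (fun u hu => by simpa using hu)
    refine ⟨g * k, mul_mem hg hk, fun w hw => ?_⟩
    obtain ⟨u, x, rfl⟩ : ∃ u x, w = u ++ [x] := by
      rcases List.eq_nil_or_concat w with h | ⟨u, x, h⟩
      · rw [h] at hw; simp at hw
      · exact ⟨u, x, by rw [h, List.concat_eq_append]⟩
    have hu : u.length = n := by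
      rw [List.length_append] at hw
      simpa using hw
    rw [Equiv.Perm.mul_apply, h3 u hu, if_pos (by simpa using hu), ← h2 u hu x, hf,
      Equiv.Perm.mul_apply, pinv]

end Pool.Agent.R638.A5
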