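import Pool.Agent.R638.A5.Count

set_option autoImplicit false

/-!
# Subexponential growth
-/

namespace Pool.Agent.R638.A5

open Finset

/-- `μ` is an exponential bound. -/
def Ex (μ : ℝ) : Prop := 1 < μ ∧ ∃ C : ℝ, 0 < C ∧ ∀ n : ℕ, ((Bn n).card : ℝ) ≤ C * μ ^ n

theorem Ex_four : Ex 4 := by
  refine ⟨by norm_num, 1, one_pos, fun n => ?_⟩
  rw [one_mul]
  exact_mod_cast card_Bn_le n

/-- Polynomials are absorbed by exponentials. -/
theorem absorb (k : ℕ) (ρ κ : ℝ) (hρ : 0 < ρ) (h : ρ < κ) :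
    ∃ C : ℝ, 0 < C ∧ ∀ n : ℕ, ((n : ℝ) + 10) ^ k * ρ ^ n ≤ C * κ ^ n := by
  have hκ : 0 < κ := hρ.trans h
  have h1 : |ρ / κ| < 1 := by
    rw [abs_of_pos (div_pos hρ hκ), div_lt_one hκ]
    exact h
  have h2 := tendsto_pow_const_mul_const_pow_of_abs_lt_one k h1
  obtain ⟨C, hC⟩ := h2.bddAbove_range
  have h3 : ∀ n : ℕ, (n : ℝ) ^ k * (ρ / κ) ^ n ≤ C := fun n => hC ⟨n, rfl⟩
  set q := ρ / κ with hq
  have hq0 : 0 < q := div_pos hρ hκ
  refine ⟨C / q ^ 10 + 1, ?_, fun n => ?_⟩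
  · have : 0 ≤ C := le_trans (by positivity) (h3 1)
    positivity
  · have h4 := h3 (n + 10)
    push_cast at h4
    have h5 : ((n : ℝ) + 10) ^ k * q ^ n ≤ C / q ^ 10 := by
      rw [le_div_iff₀ (by positivity)]
      calc ((n : ℝ) + 10) ^ k * q ^ n * q ^ 10 = ((n : ℝ) + 10) ^ k * q ^ (n + 10) := by ring
        _ ≤ C := h4
    have h6 : ρ ^ n = q ^ n * κ ^ n := by
      rw [← mul_pow, hq, div_mul_cancel₀ _ hκ.ne']
    rw [h6, ← mul_assoc]
    apply mul_le_mul_of_nonneg_right _ (by positivity)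
    linarith

theorem step (ν : ℝ) (hν : 1 < ν) : ∃ θ : ℝ, 0 < θ ∧ θ < 1 ∧ ∀ μ : ℝ, Ex μ → ∀ κ : ℝ,
    μ ^ θ < κ → ν < κ → Ex κ := by
  -- choice of `x` and `δ`
  set x : ℝ := min 1 (ν - 1) with hx
  have hx0 : 0 < x := lt_min one_pos (by linarith)
  have hx1 : x ≤ 1 := min_le_left _ _
  have hxν : 1 + x ≤ ν := by
    have := min_le_right 1 (ν - 1)
    linarith
  -- `x ^ δ ≥ (1 + x) ^ (-1/2)`
  obtain ⟨δ, hδ0, hδ1, hδ⟩ : ∃ δ : ℝ, 0 < δ ∧ δ < 1 ∧ (x⁻¹) ^ δ ≤ (1 + x) ^ (1 / 2 : ℝ) := by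
    have hc : Filter.Tendsto (fun δ : ℝ => (x⁻¹) ^ δ) (nhds 0) (nhds ((x⁻¹) ^ (0 : ℝ))) :=
      (Real.continuousAt_const_rpow (by positivity)).tendsto
    rw [Real.rpow_zero] at hc
    have h1 : (1 : ℝ) < (1 + x) ^ (1 / 2 : ℝ) := Real.one_lt_rpow (by linarith) (by norm_num)
    have h2 := (hc.eventually (gt_mem_nhds h1))
    rw [Metric.eventually_nhds_iff] at h2
    obtain ⟨ε, hε, h3⟩ := h2
    refine ⟨min (ε / 2) (1 / 2), lt_min (by linarith) (by norm_num),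
      (min_le_right _ _).trans_lt (by norm_num), (h3 ?_).le⟩
    rw [Real.dist_eq, sub_zero, abs_of_pos (lt_min (by linarith) (by norm_num))]
    exact (min_le_left _ _).trans_lt (by linarith)
  refine ⟨1 - δ, by linarith, by linarith, ?_⟩
  rintro μ ⟨hμ, C, hC, hN⟩ κ h1 h2
  refine ⟨by linarith, ?_⟩
  have hμ0 : 0 < μ := by linarith
  obtain ⟨C1, hC1, hA⟩ := absorb 5 (μ ^ (1 - δ)) κ (by positivity) h1
  obtain ⟨C2, hC2, hB⟩ := absorb 1 ν κ (by linarith) h2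
  refine ⟨6 * (3125 * (C ^ 5 * μ ^ 9 * C1) + 4 * x⁻¹ * C2), by positivity, fun n => ?_⟩
  set j : ℕ := ⌈δ * n⌉₊ with hj
  have hj1 : δ * n ≤ j := Nat.le_ceil _
  have hj2 : (j : ℝ) < δ * n + 1 := Nat.ceil_lt_add_one (by positivity)
  have hjn : j ≤ n := by
    rw [hj]
    apply Nat.ceil_le.2
    have : (0 : ℝ) ≤ n := Nat.cast_nonneg n
    nlinarith
  have hmain := card_main n j
  have hmain' : ((Bn n).card : ℝ) ≤ 6 * (3125 * ((Tm (n + 9 - j)).card : ℝ) +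
      ∑ m ∈ range (n / 2 + 1), (((Ls m).filter fun l => dfc l < j).card : ℝ)) := by
    exact_mod_cast hmain
  -- first part
  have hT := card_Tm C μ hC.le hμ.le hN (n + 9 - j)
  have hT2 : ((Tm (n + 9 - j)).card : ℝ) ≤ C ^ 5 * μ ^ 9 * C1 * κ ^ n := by
    refine hT.trans ?_
    have e1 : ((n + 9 - j : ℕ) : ℝ) + 1 ≤ (n : ℝ) + 10 := by
      have : ((n + 9 - j : ℕ) : ℝ) ≤ ((n + 9 : ℕ) : ℝ) := by exact_mod_cast Nat.sub_le _ _
      push_cast at this
      linarith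
    have e2 : μ ^ (n + 9 - j) ≤ μ ^ 9 * (μ ^ (1 - δ)) ^ n := by
      rw [← Real.rpow_natCast μ (n + 9 - j), ← Real.rpow_natCast (μ ^ (1 - δ)) n,
        ← Real.rpow_mul hμ0.le, ← Real.rpow_natCast μ 9, ← Real.rpow_add hμ0]
      apply Real.rpow_le_rpow_of_exponent_le hμ.le
      rw [Nat.cast_sub (by omega)]
      push_cast
      linarith
    calc (((n + 9 - j : ℕ) : ℝ) + 1) ^ 5 * (C ^ 5 * μ ^ (n + 9 - j))
        ≤ ((n : ℝ) + 10) ^ 5 * (C ^ 5 * (μ ^ 9 * (μ ^ (1 - δ)) ^ n)) := by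
          apply mul_le_mul (pow_le_pow_left₀ (by positivity) e1 5) _ (by positivity) (by positivity)
          exact mul_le_mul_of_nonneg_left e2 (by positivity)
      _ = C ^ 5 * μ ^ 9 * (((n : ℝ) + 10) ^ 5 * (μ ^ (1 - δ)) ^ n) := by ring
      _ ≤ C ^ 5 * μ ^ 9 * (C1 * κ ^ n) := mul_le_mul_of_nonneg_left (hA n) (by positivity)
      _ = _ := by ring
  -- second part
  have hS : ∑ m ∈ range (n / 2 + 1), (((Ls m).filter fun l => dfc l < j).card : ℝ) ≤
      4 * x⁻¹ * C2 * κ ^ n := by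
    have e3 : ∀ m ∈ range (n / 2 + 1), (((Ls m).filter fun l => dfc l < j).card : ℝ) ≤
        4 * x⁻¹ * ν ^ n := by
      intro m hm
      have hm' : m ≤ n / 2 := by
        have := mem_range.1 hm
        omega
      have e4 := card_few x hx0 hx1 m j
      have e5 : (((Ls m).filter fun l => dfc l < j).card : ℝ) ≤ 4 * (1 + x) ^ m * (x⁻¹) ^ j := by
        rw [inv_pow, ← div_eq_mul_inv, le_div_iff₀ (by positivity)]
        exact e4
      refine e5.trans ?_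
      have hxi : 1 ≤ x⁻¹ := (one_le_inv₀ hx0).2 hx1
      have e6 : (x⁻¹) ^ j ≤ x⁻¹ * ((1 + x) ^ (1 / 2 : ℝ)) ^ n := by
        have e7 : (x⁻¹) ^ j ≤ (x⁻¹) ^ (1 + δ * n) := by
          rw [← Real.rpow_natCast]
          exact Real.rpow_le_rpow_of_exponent_le hxi (by linarith)
        rw [Real.rpow_add (by positivity), Real.rpow_one, Real.rpow_mul (by positivity),
          Real.rpow_natCast] at e7
        refine e7.trans ?_
        apply mul_le_mul_of_nonneg_left _ (by positivity)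
        exact pow_le_pow_left₀ (by positivity) hδ n
      have e8 : (1 + x) ^ m ≤ ((1 + x) ^ (1 / 2 : ℝ)) ^ n := by
        rw [← Real.rpow_natCast (1 + x) m, ← Real.rpow_natCast _ n,
          ← Real.rpow_mul (by linarith)]
        apply Real.rpow_le_rpow_of_exponent_le (by linarith)
        have : (m : ℝ) ≤ ((n / 2 : ℕ) : ℝ) := by exact_mod_cast hm'
        have h' : ((n / 2 : ℕ) : ℝ) ≤ (n : ℝ) / 2 := by
          have := @Nat.cast_div_le ℝ _ _ _ n 2
          exact_mod_cast this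
        linarith
      have e9 : ((1 + x) ^ (1 / 2 : ℝ)) ^ n * ((1 + x) ^ (1 / 2 : ℝ)) ^ n = (1 + x) ^ n := by
        rw [← mul_pow, ← Real.rpow_add (by linarith)]
        norm_num
      calc 4 * (1 + x) ^ m * (x⁻¹) ^ j
          ≤ 4 * ((1 + x) ^ (1 / 2 : ℝ)) ^ n * (x⁻¹ * ((1 + x) ^ (1 / 2 : ℝ)) ^ n) := by
            apply mul_le_mul _ e6 (by positivity) (by positivity)
            exact mul_le_mul_of_nonneg_left e8 (by norm_num)
        _ = 4 * x⁻¹ * (((1 + x) ^ (1 / 2 : ℝ)) ^ n * ((1 + x) ^ (1 / 2 : ℝ)) ^ n) := by ring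
        _ = 4 * x⁻¹ * (1 + x) ^ n := by rw [e9]
        _ ≤ 4 * x⁻¹ * ν ^ n := by
            apply mul_le_mul_of_nonneg_left _ (by positivity)
            exact pow_le_pow_left₀ (by linarith) hxν n
    refine (sum_le_card_nsmul _ _ _ e3).trans ?_
    rw [nsmul_eq_mul, card_range]
    have e10 : ((n / 2 + 1 : ℕ) : ℝ) ≤ (n : ℝ) + 10 := by
      have : (n / 2 + 1 : ℕ) ≤ n + 10 := by omega
      exact_mod_cast this
    have e11 := hB n
    rw [pow_one] at e11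
    calc ((n / 2 + 1 : ℕ) : ℝ) * (4 * x⁻¹ * ν ^ n) ≤ ((n : ℝ) + 10) * (4 * x⁻¹ * ν ^ n) := by
          apply mul_le_mul_of_nonneg_right e10
          have : 0 < ν := by linarith
          positivity
      _ = 4 * x⁻¹ * (((n : ℝ) + 10) * ν ^ n) := by ring
      _ ≤ 4 * x⁻¹ * (C2 * κ ^ n) := mul_le_mul_of_nonneg_left e11 (by positivity)
      _ = _ := by ring
  calc ((Bn n).card : ℝ) ≤ _ := hmain'
    _ ≤ 6 * (3125 * (C ^ 5 * μ ^ 9 * C1 * κ ^ n) + 4 * x⁻¹ * C2 * κ ^ n) := by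
        apply mul_le_mul_of_nonneg_left _ (by norm_num)
        linarith
    _ = _ := by ring

/-- **Subexponential growth**. -/
theorem Ex_all (μ : ℝ) (hμ : 1 < μ) : Ex μ := by
  set I : Set ℝ := {μ | Ex μ} with hI
  have hne : I.Nonempty := ⟨4, Ex_four⟩
  have hbd : BddBelow I := ⟨1, fun y hy => hy.1.le⟩
  set lam := sInf I with hlam
  have h1 : 1 ≤ lam := le_csInf hne fun y hy => hy.1.le
  have hmono : ∀ y z, Ex y → y ≤ z → Ex z := by
    rintro y z ⟨hy, C, hC, hN⟩ hyz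
    refine ⟨hy.trans_le hyz, C, hC, fun n => (hN n).trans ?_⟩
    apply mul_le_mul_of_nonneg_left _ hC.le
    exact pow_le_pow_left₀ (by linarith) hyz n
  have hlam1 : lam = 1 := by
    by_contra hne1
    have hgt : 1 < lam := lt_of_le_of_ne h1 (Ne.symm hne1)
    obtain ⟨θ, hθ0, hθ1, hstep⟩ := step ((1 + lam) / 2) (by linarith)
    have hlt : lam ^ θ < lam := by
      have := Real.rpow_lt_rpow_of_exponent_lt hgt hθ1
      rwa [Real.rpow_one] at this
    have hcont : Filter.Tendsto (fun y : ℝ => y ^ θ) (nhds lam) (nhds (lam ^ θ)) :=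
      (Real.continuousAt_rpow_const lam θ (.inl (by linarith))).tendsto
    have hev := hcont.eventually (gt_mem_nhds hlt)
    rw [Metric.eventually_nhds_iff] at hev
    obtain ⟨ε, hε, hev⟩ := hev
    obtain ⟨μ', hμ', hlt'⟩ := exists_lt_of_csInf_lt hne (show sInf I < lam + ε by
      rw [← hlam]; linarith)
    have hge : lam ≤ μ' := csInf_le hbd hμ'
    have hμθ : μ' ^ θ < lam := hev (by
      rw [Real.dist_eq, abs_of_nonneg (by linarith)]
      linarith)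
    obtain ⟨κ, hκ1, hκ2⟩ := exists_between (max_lt hμθ (show (1 + lam) / 2 < lam by linarith))
    have := hstep μ' hμ' κ ((le_max_left _ _).trans_lt hκ1) ((le_max_right _ _).trans_lt hκ1)
    have h2 : lam ≤ κ := csInf_le hbd this
    linarith
  obtain ⟨μ', hμ', hlt'⟩ := exists_lt_of_csInf_lt hne (show sInf I < μ by
    rw [← hlam, hlam1]; exact hμ)
  exact hmono μ' μ hμ' hlt'.le

end Pool.Agent.R638.A5
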